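import Pool.Agent.Lib.MP_fe24f9_co.Girth

namespace Pool.Agent.Lib.MP_fe24f9_co

open Finset SimpleGraph

variable (t j0 : ℕ)

/-- The `j`-th hub. -/
def hub (j : ℕ) : ℕ × ℕ := if j0 ≤ j then (j, 0) else (t, t - j)

/-- `y` is an assigned neighbour of the `j`-th hub. -/
def InD (j : ℕ) (y : ℕ × ℕ) : Prop :=
  (j0 ≤ j ∧ y.1 = j ∧ 1 ≤ y.2 ∧ y.2 + (t - j) ≤ a j) ∨
    (j < y.1 ∧ y.1 ≤ t ∧ y.2 + j = y.1 ∧ t ≤ y.1 + a j ∧ (j0 ≤ j ∨ y.1 < t))

/-- The graph of overlapping stars. -/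
def GG : SimpleGraph (ℕ × ℕ) :=
  SimpleGraph.fromRel fun x y => ∃ j ≤ t, x = hub t j0 j ∧ InD t j0 j y

/-- Its vertex set. -/
def SS : Finset (ℕ × ℕ) :=
  (range (t + 1)).biUnion fun i => (range (a i + 1 - (t - i))).image fun c => (i, c)

/-- Enumeration of the assigned neighbours. -/
def gg (j k : ℕ) : ℕ × ℕ :=
  if j0 ≤ j then (if k < t - j then (j + 1 + k, 1 + k) else (j, k - (t - j) + 1))
  else (t - a j + k, t - a j + k - j)

/-- A linear relaxation of the parent relation. -/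
def PP (x y : ℕ × ℕ) : Prop :=
  1 ≤ y.2 ∧ j0 ≤ y.1 ∧ y.1 ≤ t ∧ ((x.1 = y.1 ∧ x.2 = 0) ∨
    (x.1 + y.2 = y.1 ∧ j0 ≤ x.1 ∧ x.2 = 0) ∨
    (y.2 ≤ y.1 ∧ y.1 < j0 + y.2 ∧ y.1 < t ∧ x.1 = t ∧ x.2 + y.1 = t + y.2))

lemma hub_eq (j : ℕ) : (j0 ≤ j ∧ (hub t j0 j).1 = j ∧ (hub t j0 j).2 = 0) ∨
    (j < j0 ∧ (hub t j0 j).1 = t ∧ (hub t j0 j).2 = t - j) := by
  unfold hub
  split_ifs with h
  · exact Or.inl ⟨h, rfl, rfl⟩
  · exact Or.inr ⟨by omega, rfl, rfl⟩

lemma gg_eq (j k : ℕ) :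
    (j0 ≤ j ∧ k < t - j ∧ (gg t j0 j k).1 = j + 1 + k ∧ (gg t j0 j k).2 = 1 + k) ∨
    (j0 ≤ j ∧ t - j ≤ k ∧ (gg t j0 j k).1 = j ∧ (gg t j0 j k).2 = k - (t - j) + 1) ∨
    (j < j0 ∧ (gg t j0 j k).1 = t - a j + k ∧ (gg t j0 j k).2 = t - a j + k - j) := by
  unfold gg
  split_ifs with h h'
  · exact Or.inl ⟨h, h', rfl, rfl⟩
  · exact Or.inr (Or.inl ⟨h, by omega, rfl, rfl⟩)
  · exact Or.inr (Or.inr ⟨by omega, rfl, rfl⟩)

/-- The assigned neighbours as a finite set. -/
def DD (j : ℕ) : Finset (ℕ × ℕ) := (range (a j)).image (gg t j0 j)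

variable {t j0}

lemma mem_SS {y : ℕ × ℕ} : y ∈ SS t ↔ y.1 ≤ t ∧ y.2 + (t - y.1) ≤ a y.1 := by
  simp only [SS, mem_biUnion, mem_range, mem_image]
  constructor
  · rintro ⟨i, hi, c, hc, rfl⟩
    simp only
    omega
  · rintro ⟨h1, h2⟩
    exact ⟨y.1, by omega, y.2, by omega, rfl⟩

lemma card_SS : (SS t).card = ∑ j ∈ range (t + 1), (a j + 1 - (t - j)) := by
  rw [SS, card_biUnion]
  · refine sum_congr rfl fun j _ => ?_
    rw [card_image_of_injective _ (fun c c' h => (Prod.ext_iff.1 h).2), card_range]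
  · intro i _ j _ hij
    simp only [Function.onFun]
    rw [Finset.disjoint_left]
    intro y hy hy'
    simp only [mem_image] at hy hy'
    obtain ⟨c, -, rfl⟩ := hy
    obtain ⟨c', -, h⟩ := hy'
    exact hij (Prod.ext_iff.1 h).1.symm

lemma two_le_a (j : ℕ) : j + 2 ≤ a j := by
  have := a_mono (Nat.zero_le j)
  rw [a_zero] at this
  omega

section
variable (h0 : ∀ j, j0 ≤ j ↔ t ≤ j + a j)
include h0

lemma PP_of {j : ℕ} (hj : j ≤ t) {y : ℕ × ℕ} (hy : InD t j0 j y) : PP t j0 (hub t j0 j) y := by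
  have e1 := h0 y.1
  have e3 := hub_eq t j0 j
  unfold PP
  rcases hy with hy | hy
  · omega
  · have e2 := a_mono (show j ≤ y.1 by omega)
    omega

lemma adj_PP {x y : ℕ × ℕ} (h : (GG t j0).Adj x y) : PP t j0 x y ∨ PP t j0 y x := by
  obtain ⟨-, ⟨j, hj, rfl, hy⟩ | ⟨j, hj, rfl, hy⟩⟩ := h
  · exact Or.inl (PP_of h0 hj hy)
  · exact Or.inr (PP_of h0 hj hy)

lemma GG_girth : 5 ≤ (GG t j0).egirth := by
  refine girth_of_local ?_ ?_
  · intro x y z h1 h2 h3
    have e1 := adj_PP h0 h1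
    have e2 := adj_PP h0 h2
    have e3 := adj_PP h0 h3
    unfold PP at e1 e2 e3
    omega
  · intro x y z w h1 h2 h3 h4 hxz hyw
    have e1 := adj_PP h0 h1
    have e2 := adj_PP h0 h2
    have e3 := adj_PP h0 h3
    have e4 := adj_PP h0 h4
    have f1 : x.1 ≠ z.1 ∨ x.2 ≠ z.2 := by
      by_contra hc
      push Not at hc
      exact hxz (Prod.ext hc.1 hc.2)
    have f2 : y.1 ≠ w.1 ∨ y.2 ≠ w.2 := by
      by_contra hc
      push Not at hc
      exact hyw (Prod.ext hc.1 hc.2)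
    unfold PP at e1 e2 e3 e4
    omega

lemma card_DD (j : ℕ) : (DD t j0 j).card = a j := by
  rw [DD, card_image_of_injOn, card_range]
  intro k _ k' _ hk
  have e1 := gg_eq t j0 j k
  have e2 := gg_eq t j0 j k'
  have e3 := h0 j
  rw [← hk] at e2
  omega

lemma mem_DD {j : ℕ} (hj : j ≤ t) {y : ℕ × ℕ} : y ∈ DD t j0 j ↔ InD t j0 j y := by
  have e3 := h0 j
  simp only [DD, mem_image, mem_range]
  unfold InD
  constructor
  · rintro ⟨k, hk, rfl⟩
    have e1 := gg_eq t j0 j k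
    omega
  · intro hy
    by_cases hl : j0 ≤ j
    · by_cases hr : y.1 = j
      · have e1 := gg_eq t j0 j (y.2 - 1 + (t - j))
        exact ⟨y.2 - 1 + (t - j), by omega, Prod.ext (by omega) (by omega)⟩
      · have e1 := gg_eq t j0 j (y.2 - 1)
        exact ⟨y.2 - 1, by omega, Prod.ext (by omega) (by omega)⟩
    · have e1 := gg_eq t j0 j (y.1 - (t - a j))
      exact ⟨y.1 - (t - a j), by omega, Prod.ext (by omega) (by omega)⟩

lemma hub_mem {j : ℕ} (hj : j ≤ t) : hub t j0 j ∈ SS t := by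
  have e1 := hub_eq t j0 j
  have e2 := h0 j
  have e3 := two_le_a t
  rw [mem_SS]
  rcases e1 with e1 | e1
  · rw [e1.2.1, e1.2.2]; omega
  · rw [e1.2.1, e1.2.2]; omega

lemma InD_mem {j : ℕ} (hj : j ≤ t) {y : ℕ × ℕ} (hy : InD t j0 j y) : y ∈ SS t := by
  have e2 := h0 j
  rw [mem_SS]
  rcases hy with hy | hy
  · rw [hy.2.1]; omega
  · have e3 := a_mono (show j ≤ y.1 by omega)
    omega

lemma hub_inj {i j : ℕ} (hi : i ≤ t) (hj : j ≤ t) (h : hub t j0 i = hub t j0 j) : i = j := by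
  have e1 := hub_eq t j0 i
  have e2 := hub_eq t j0 j
  have e3 := h0 t
  rw [← h] at e2
  omega

omit h0 in
/-- A hub is an assigned neighbour only if it is a small hub, and then only of the top hub. -/
lemma hub_InD {i j : ℕ} (hi : i ≤ t) (hj : j ≤ t) (h : InD t j0 j (hub t j0 i)) :
    j = t ∧ i < j0 := by
  have e1 := hub_eq t j0 i
  unfold InD at h
  omega

lemma GG_bad : Bad (GG t j0) t (SS t) := by
  classical
  intro B _ hB hg
  have hg' : Good (GG t j0) (SS t \ B) := good_congr hg (by simp)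
  clear hg
  set A := SS t \ B with hA
  have ht0 : j0 ≤ t := (h0 t).2 (by omega)
  have hinj : Set.InjOn (hub t j0) (range (t + 1) : Finset ℕ) := by
    intro i hi j hj h
    simp only [coe_range, Set.mem_Iio] at hi hj
    exact hub_inj h0 (by omega) (by omega) h
  have hne : ((range (t + 1)).filter fun j => hub t j0 j ∉ B).Nonempty := by
    by_contra hc
    rw [not_nonempty_iff_eq_empty, filter_eq_empty_iff] at hc
    have h1 : (range (t + 1)).image (hub t j0) ⊆ B := by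
      intro y hy
      obtain ⟨j, hj, rfl⟩ := mem_image.1 hy
      exact not_not.1 (hc hj)
    have h2 := card_le_card h1
    rw [card_image_of_injOn hinj, card_range] at h2
    omega
  obtain ⟨m, hm, hmax⟩ := exists_max_image _ id hne
  simp only [mem_filter, mem_range, id] at hm hmax
  have hmt : m ≤ t := by omega
  have hdead : ∀ j, m < j → j ≤ t → hub t j0 j ∈ B := by
    intro j h1 h2
    by_contra hc
    have := hmax j ⟨by omega, hc⟩
    omega
  have halive : ∀ j, j ≤ t → hub t j0 j ∈ A → j ≤ m := fun j hj hjA =>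
    hmax j ⟨by omega, (mem_sdiff.1 hjA).2⟩
  have hmA : hub t j0 m ∈ A := mem_sdiff.2 ⟨hub_mem h0 hmt, hm.2⟩
  -- the top surviving hub has large degree
  have hlow : a m ≤ degIn (GG t j0) A (hub t j0 m) + m := by
    set H := (Ioc m t).image (hub t j0) with hH
    have hHc : H.card = t - m := by
      rw [card_image_of_injOn, Nat.card_Ioc]
      intro i hi j hj h
      simp only [coe_Ioc, Set.mem_Ioc] at hi hj
      exact hub_inj h0 hi.2 hj.2 h
    have hHB : H ⊆ B := by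
      intro y hy
      obtain ⟨j, hj, rfl⟩ := mem_image.1 hy
      exact hdead j (mem_Ioc.1 hj).1 (mem_Ioc.1 hj).2
    have h1 : DD t j0 m ∩ B ⊆ B \ H := by
      intro y hy
      refine mem_sdiff.2 ⟨(mem_inter.1 hy).2, fun hyH => ?_⟩
      obtain ⟨j, hj, rfl⟩ := mem_image.1 hyH
      have := hub_InD (mem_Ioc.1 hj).2 hmt ((mem_DD h0 hmt).1 (mem_inter.1 hy).1)
      have := mem_Ioc.1 hj
      omega
    have h2 := card_le_card h1
    rw [card_sdiff_of_subset hHB, hHc] at h2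
    have h3 := card_sdiff_add_card_inter (DD t j0 m) B
    rw [card_DD h0] at h3
    have h4 : (DD t j0 m \ B).card ≤ degIn (GG t j0) A (hub t j0 m) := by
      refine card_le_card fun y hy => ?_
      obtain ⟨hy1, hy2⟩ := mem_sdiff.1 hy
      have hy3 := (mem_DD h0 hmt).1 hy1
      refine mem_filter.2 ⟨mem_sdiff.2 ⟨InD_mem h0 hmt hy3, hy2⟩, ?_, Or.inl ⟨m, hmt, rfl, hy3⟩⟩
      intro hc
      have := hub_InD hmt hmt (hc ▸ hy3)
      omega
    omega
  -- every other vertex has smaller degree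
  have hup : ∀ x ∈ A, x ≠ hub t j0 m → degIn (GG t j0) A x + m < a m := by
    intro x hx hxm
    by_cases hxh : ∃ j ≤ t, x = hub t j0 j
    · obtain ⟨j, hj, rfl⟩ := hxh
      have hjm : j < m := lt_of_le_of_ne (halive j hj hx) fun h => hxm (by rw [h])
      obtain ⟨m', rfl⟩ : ∃ m', m = m' + 1 := ⟨m - 1, by omega⟩
      have e1 := a_succ m'
      have e2 := a_mono (show j ≤ m' by omega)
      have hnb : ∀ y ∈ A, (GG t j0).Adj (hub t j0 j) y →
          y ∈ DD t j0 j ∨ (y = hub t j0 t ∧ j < j0 ∧ m' + 1 = t) := by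
        rintro y hy ⟨-, ⟨i, hi, h1, h2⟩ | ⟨i, hi, h1, h2⟩⟩
        · rw [← hub_inj h0 hj hi h1] at h2
          exact Or.inl ((mem_DD h0 hj).2 h2)
        · have h3 := hub_InD hj hi h2
          have h4 := halive i hi (h1 ▸ hy)
          exact Or.inr ⟨h3.1 ▸ h1, h3.2, by omega⟩
      by_cases hs : j < j0 ∧ m' + 1 = t
      · have h1 : degIn (GG t j0) A (hub t j0 j) ≤ (insert (hub t j0 t) (DD t j0 j)).card := by
          refine card_le_card fun y hy => ?_
          obtain ⟨hy1, hy2⟩ := mem_filter.1 hy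
          rcases hnb y hy1 hy2 with h | h
          · exact mem_insert_of_mem h
          · exact h.1 ▸ mem_insert_self _ _
        have h2 := card_insert_le (hub t j0 t) (DD t j0 j)
        rw [card_DD h0] at h2
        have e3 := h0 j
        have e4 := two_le_a j
        omega
      · have h1 : degIn (GG t j0) A (hub t j0 j) ≤ (DD t j0 j).card := by
          refine card_le_card fun y hy => ?_
          obtain ⟨hy1, hy2⟩ := mem_filter.1 hy
          rcases hnb y hy1 hy2 with h | h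
          · exact h
          · exact absurd h.2 hs
        rw [card_DD h0] at h1
        omega
    · have hnb : ∀ y ∈ A, (GG t j0).Adj x y →
          ∃ i ≤ m, y = hub t j0 i ∧ (i = x.1 ∨ i = x.1 - x.2) := by
        rintro y hy ⟨-, ⟨i, hi, h1, -⟩ | ⟨i, hi, h1, h2⟩⟩
        · exact absurd ⟨i, hi, h1⟩ hxh
        · refine ⟨i, halive i hi (h1 ▸ hy), h1, ?_⟩
          unfold InD at h2
          omega
      rcases Nat.eq_zero_or_pos m with hm0 | hm0
      · have h1 : degIn (GG t j0) A x ≤ ({hub t j0 0} : Finset _).card := by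
          refine card_le_card fun y hy => ?_
          obtain ⟨hy1, hy2⟩ := mem_filter.1 hy
          obtain ⟨i, hi, rfl, -⟩ := hnb y hy1 hy2
          rw [show i = 0 by omega]
          exact mem_singleton_self _
        rw [card_singleton] at h1
        have := two_le_a m
        omega
      · have h1 : degIn (GG t j0) A x ≤
            ({hub t j0 x.1, hub t j0 (x.1 - x.2)} : Finset _).card := by
          refine card_le_card fun y hy => ?_
          obtain ⟨hy1, hy2⟩ := mem_filter.1 hy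
          obtain ⟨i, -, rfl, rfl | rfl⟩ := hnb y hy1 hy2 <;> simp
        have h2 : ({hub t j0 x.1, hub t j0 (x.1 - x.2)} : Finset _).card ≤ 2 := card_le_two
        obtain ⟨m', rfl⟩ : ∃ m', m = m' + 1 := ⟨m - 1, by omega⟩
        have e1 := a_succ m'
        have e2 := two_le_a m'
        omega
  rcases hg' with hc | ⟨u, hu, w, hw, huw, h1, h2⟩
  · have e1 := two_le_a m
    have e2 : degIn (GG t j0) A (hub t j0 m) ≤ A.card := card_le_card (filter_subset _ _)
    omega
  · have e1 := h1 _ hmA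
    have e2 := h2 _ hmA
    by_cases hum : u = hub t j0 m
    · have := hup w hw fun h => huw (hum.trans h.symm)
      omega
    · have := hup u hu hum
      omega

end

lemma exists_j0 (t : ℕ) : ∃ j0, ∀ j, j0 ≤ j ↔ t ≤ j + a j := by
  classical
  have hex : ∃ j, t ≤ j + a j := ⟨t, by omega⟩
  refine ⟨Nat.find hex, fun j => ⟨fun h => ?_, fun h => Nat.find_min' hex h⟩⟩
  have e1 := Nat.find_spec hex
  have e2 := a_mono h
  omega

open Classical in
lemma degIn_comap {V W : Type} (G : SimpleGraph W) (φ : V ↪ W) (A : Finset V) (v : V) :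
    degIn (G.comap φ) A v = degIn G (A.map φ) (φ v) := by
  unfold degIn
  rw [filter_map, card_map]
  rfl

lemma good_map {V W : Type} (G : SimpleGraph W) (φ : V ↪ W) (A : Finset V)
    (h : Good (G.comap φ) A) : Good G (A.map φ) := by
  rcases h with h | ⟨u, hu, w, hw, huw, h1, h2⟩
  · exact Or.inl (by rwa [card_map])
  · refine Or.inr ⟨φ u, mem_map_of_mem _ hu, φ w, mem_map_of_mem _ hw, φ.injective.ne huw, ?_, ?_⟩
    · intro x hx
      obtain ⟨y, hy, rfl⟩ := mem_map.1 hx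
      rw [← degIn_comap, ← degIn_comap]
      exact h1 y hy
    · intro x hx
      obtain ⟨y, hy, rfl⟩ := mem_map.1 hx
      rw [← degIn_comap, ← degIn_comap]
      exact h2 y hy

lemma bad_comap {V W : Type} (G : SimpleGraph W) (φ : V ↪ W) (A : Finset V) {t : ℕ}
    (h : Bad G t (A.map φ)) : Bad (G.comap φ) t A := by
  classical
  intro B hB hc hg
  refine h (B.map φ) (map_subset_map.2 hB) (by rwa [card_map]) ?_
  refine good_congr (good_map G φ _ hg) fun x => ?_
  simp only [mem_sdiff, mem_map]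
  constructor
  · rintro ⟨⟨y, hy, rfl⟩, h2⟩
    exact ⟨y, ⟨hy, fun hyB => h2 ⟨y, hyB, rfl⟩⟩, rfl⟩
  · rintro ⟨y, ⟨hy, hyB⟩, rfl⟩
    exact ⟨⟨y, hy, rfl⟩, fun ⟨z, hz, hzy⟩ => hyB (φ.injective hzy ▸ hz)⟩

lemma exists_extremal (t n : ℕ) (hn : n = ∑ j ∈ range (t + 1), (a j + 1 - (t - j))) :
    ∃ G : SimpleGraph (Fin n), 5 ≤ G.egirth ∧ Bad G t univ := by
  obtain ⟨j0, h0⟩ := exists_j0 t
  rw [← card_SS] at hn
  let φ : Fin n ↪ ℕ × ℕ :=
    ((SS t).equivFinOfCardEq hn.symm).symm.toEmbedding.trans (Function.Embedding.subtype _)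
  have hφ : (univ : Finset (Fin n)).map φ = SS t := by
    apply eq_of_subset_of_card_le
    · intro y hy
      obtain ⟨k, -, rfl⟩ := mem_map.1 hy
      exact (((SS t).equivFinOfCardEq hn.symm).symm k).2
    · simp [hn]
  refine ⟨(GG t j0).comap φ, ?_, bad_comap _ _ _ (hφ ▸ GG_bad h0)⟩
  exact (GG_girth h0).trans (SimpleGraph.IsContained.egirth_le
    (SimpleGraph.Embedding.comap φ (GG t j0)).isContained)

end Pool.Agent.Lib.MP_fe24f9_co
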