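import Pool.Agent.Lib.MP_fe24f9_co.Upper

namespace Pool.Agent.Lib.MP_fe24f9_co

open Finset SimpleGraph

variable {V : Type} {G : SimpleGraph V}

lemma no_tri (h : 5 ≤ G.egirth) {x y z : V} (h1 : G.Adj x y) (h2 : G.Adj y z) (h3 : G.Adj z x) :
    False := by
  have hc : (Walk.cons h1 (Walk.cons h2 (Walk.cons h3 Walk.nil))).IsCycle := by
    have := h1.ne
    have := h2.ne
    have := h3.ne
    simp [Walk.isCycle_def, Walk.isTrail_def]
    aesop
  have := le_egirth.1 h _ _ hc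
  simp at this
  exact absurd this (by decide)

lemma no_quad (h : 5 ≤ G.egirth) {x y z w : V} (h1 : G.Adj x y) (h2 : G.Adj y z) (h3 : G.Adj z w)
    (h4 : G.Adj w x) (hxz : x ≠ z) (hyw : y ≠ w) : False := by
  have hc : (Walk.cons h1 (Walk.cons h2 (Walk.cons h3 (Walk.cons h4 Walk.nil)))).IsCycle := by
    have := h1.ne
    have := h2.ne
    have := h3.ne
    have := h4.ne
    simp [Walk.isCycle_def, Walk.isTrail_def]
    aesop
  have := le_egirth.1 h _ _ hc
  simp at this
  exact absurd this (by decide)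

lemma girth_of_local
    (h3 : ∀ x y z : V, G.Adj x y → G.Adj y z → G.Adj z x → False)
    (h4 : ∀ x y z w : V, G.Adj x y → G.Adj y z → G.Adj z w → G.Adj w x → x ≠ z → y ≠ w → False) :
    5 ≤ G.egirth := by
  rw [le_egirth]
  intro v p hp
  have hl := hp.three_le_length
  have hn := hp.support_nodup
  by_contra hlt
  have hlt' : p.length < 5 := by
    by_contra h'
    exact hlt (by exact_mod_cast not_lt.1 h')
  match p, hl, hn, hlt' with
  | .cons h1 (.cons h2 (.cons h3' .nil)), _, _, _ => exact h3 _ _ _ h1 h2 h3'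
  | .cons h1 (.cons h2 (.cons h3' (.cons h4' .nil))), _, hn, _ =>
    simp at hn
    exact h4 _ _ _ _ h1 h2 h3' h4' (by tauto) (by tauto)
  | .cons _ (.cons _ (.cons _ (.cons _ (.cons _ _)))), _, _, hl => simp at hl; omega

lemma codeg_of_girth (h : 5 ≤ G.egirth) (v x : V) (hx : x ≠ v) (T : Finset V)
    (hT : ∀ y ∈ T, (y = x ∨ G.Adj x y) ∧ G.Adj v y) : T.card ≤ 1 := by
  rw [card_le_one]
  intro y hy z hz
  by_contra hyz
  obtain ⟨h1 | h1, h2⟩ := hT y hy <;> obtain ⟨h3 | h3, h4⟩ := hT z hz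
  · exact hyz (h1.trans h3.symm)
  · exact no_tri h h2 (h1 ▸ h3) h4.symm
  · exact no_tri h h4 (h3 ▸ h1) h2.symm
  · exact no_quad h h1 h2.symm h4 h3.symm hx hyz

end Pool.Agent.Lib.MP_fe24f9_co
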