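import Pool.Agent.Lib.MP_fe24f9_co.Upper

namespace Pool.Agent.Lib.MP_fe24f9_co

open Finset

open Classical

lemma hubs {V : Type} {G : SimpleGraph V} : ∀ (t : ℕ) (A : Finset V), Bad G t A →
    ∃ T ⊆ A, T.card = t + 1 ∧ ∑ j ∈ range (t + 1), a j ≤ ∑ v ∈ T, degIn G A v := by
  intro t
  induction t with
  | zero =>
    intro A h
    obtain ⟨v, hv, hb⟩ := deg_lb 0 A h
    exact ⟨{v}, by simpa using hv, by simp, by simpa using hb⟩
  | succ t ih =>
    intro A h
    obtain ⟨v, hv, hb⟩ := deg_lb _ A h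
    obtain ⟨T, hT, hc, hs⟩ := ih _ (bad_erase h hv)
    have hvT : v ∉ T := fun h' => (mem_erase.1 (hT h')).1 rfl
    refine ⟨insert v T, insert_subset hv (hT.trans (erase_subset _ _)),
      by rw [card_insert_of_notMem hvT, hc], ?_⟩
    rw [sum_range_succ, sum_insert hvT]
    have : ∑ x ∈ T, degIn G (A.erase v) x ≤ ∑ x ∈ T, degIn G A x :=
      sum_le_sum fun x _ => degIn_mono (erase_subset _ _) x
    omega

lemma two_mul_a (j : ℕ) : 2 * a j = (j + 2) * (j + 1) + 2 := by
  induction j with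
  | zero => rw [a_zero]
  | succ j ih => rw [a_succ]; nlinarith

lemma cube_le_sum (t : ℕ) : (t + 1) ^ 3 ≤ 6 * ∑ j ∈ range (t + 1), a j := by
  induction t with
  | zero => simp [a_zero]
  | succ t ih =>
    rw [sum_range_succ]
    have := two_mul_a (t + 1)
    nlinarith

lemma count_kst {n s r : ℕ} {G : SimpleGraph (Fin n)}
    (hG : (completeBipartiteGraph (Fin s) (Fin r)).Free G) (T : Finset (Fin n)) :
    ∑ x : Fin n, (degIn G T x).choose s ≤ r * T.card.choose s := by
  have h1 : ∀ x : Fin n, (degIn G T x).choose s =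
      ((T.powersetCard s).filter fun S => ∀ v ∈ S, G.Adj x v).card := by
    intro x
    rw [degIn, ← card_powersetCard]
    congr 1
    ext S
    simp only [mem_powersetCard, mem_filter, subset_iff]
    constructor
    · rintro ⟨h, hc⟩
      exact ⟨⟨fun v hv => (h hv).1, hc⟩, fun v hv => (h hv).2⟩
    · rintro ⟨⟨h, hc⟩, h'⟩
      exact ⟨fun v hv => ⟨h hv, h' v hv⟩, hc⟩
  simp only [h1, card_filter]
  rw [sum_comm, ← card_powersetCard, mul_comm, ← smul_eq_mul]
  refine sum_le_card_nsmul _ _ _ fun S hS => ?_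
  rw [← card_filter]
  by_contra hc
  obtain ⟨R, hR, hRc⟩ := exists_subset_card_eq (not_le.1 hc).le
  refine hG (SimpleGraph.completeBipartiteGraph_isContained_iff.2 ⟨S, R, ?_, ?_, ?_⟩)
  · simpa using (mem_powersetCard.1 hS).2
  · simpa using hRc
  · intro v hv x hx
    exact ((mem_filter.1 (hR hx)).2 v hv).symm

lemma kst_bound {n s r t : ℕ} {G : SimpleGraph (Fin n)} (hs : 2 ≤ s)
    (hG : (completeBipartiteGraph (Fin (s + 1)) (Fin r)).Free G) (hb : Bad G t univ) :
    (t + 1) ^ (2 * (s + 1)) ≤ (12 ^ (s + 1) * r + (12 * s) ^ s) * n ^ s := by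
  obtain ⟨T, -, hT, hsum⟩ := hubs t _ hb
  have h1 : ∑ v ∈ T, degIn G univ v = ∑ x : Fin n, degIn G T x := by
    simp only [degIn, card_filter]
    rw [sum_comm]
    refine sum_congr rfl fun x _ => sum_congr rfl fun v _ => ?_
    simp only [G.adj_comm]
  have h2 := cube_le_sum t
  set F := t + 1 with hF
  have hF1 : 1 ≤ F := by omega
  have h3 : ∑ x : Fin n, (degIn G T x - s) ^ (s + 1) ≤ r * F ^ (s + 1) := by
    calc ∑ x : Fin n, (degIn G T x - s) ^ (s + 1)
        ≤ ∑ x : Fin n, (s + 1).factorial * (degIn G T x).choose (s + 1) := by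
          refine sum_le_sum fun x _ => ?_
          rw [← Nat.descFactorial_eq_factorial_mul_choose]
          have := Nat.pow_sub_le_descFactorial (degIn G T x) (s + 1)
          rwa [Nat.add_sub_add_right] at this
      _ ≤ (s + 1).factorial * (r * T.card.choose (s + 1)) := by
          rw [← mul_sum]
          exact Nat.mul_le_mul_left _ (count_kst hG T)
      _ = r * F.descFactorial (s + 1) := by
          rw [Nat.descFactorial_eq_factorial_mul_choose, hT]; ring
      _ ≤ r * F ^ (s + 1) := Nat.mul_le_mul_left _ (Nat.descFactorial_le_pow _ _)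
  have h4 := pow_sum_le_card_mul_sum_pow (s := (univ : Finset (Fin n)))
    (f := fun x => degIn G T x - s) (fun _ _ => Nat.zero_le _) s
  simp only [card_univ, Fintype.card_fin, Nat.cast_id] at h4
  have h5 : ∑ x : Fin n, degIn G T x ≤ ∑ x : Fin n, (degIn G T x - s) + s * n := by
    have : s * n = ∑ _x : Fin n, s := by simp [mul_comm]
    rw [this, ← sum_add_distrib]
    exact sum_le_sum fun x _ => by omega
  set E := ∑ x : Fin n, (degIn G T x - s) with hE
  rcases le_or_gt (12 * (s * n)) (F ^ 3) with hc | hc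
  · have h6 : F ^ 3 ≤ 12 * E := by omega
    have h7 : F ^ (s + 1) * F ^ (2 * (s + 1)) ≤ F ^ (s + 1) * (12 ^ (s + 1) * r * n ^ s) := by
      calc F ^ (s + 1) * F ^ (2 * (s + 1)) = (F ^ 3) ^ (s + 1) := by
            rw [← pow_mul, ← pow_add]; congr 1; omega
        _ ≤ (12 * E) ^ (s + 1) := Nat.pow_le_pow_left h6 _
        _ = 12 ^ (s + 1) * E ^ (s + 1) := mul_pow _ _ _
        _ ≤ 12 ^ (s + 1) * (n ^ s * (r * F ^ (s + 1))) :=
          Nat.mul_le_mul_left _ (h4.trans (Nat.mul_le_mul_left _ h3))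
        _ = F ^ (s + 1) * (12 ^ (s + 1) * r * n ^ s) := by ring
    have h8 := Nat.le_of_mul_le_mul_left h7 (by positivity)
    exact h8.trans (Nat.mul_le_mul_right _ (Nat.le_add_right _ _))
  · calc F ^ (2 * (s + 1)) ≤ F ^ (3 * s) := Nat.pow_le_pow_right hF1 (by omega)
      _ = (F ^ 3) ^ s := pow_mul _ _ _
      _ ≤ (12 * (s * n)) ^ s := Nat.pow_le_pow_left hc.le _
      _ = (12 * s) ^ s * n ^ s := by rw [← mul_assoc, mul_pow]
      _ ≤ _ := Nat.mul_le_mul_right _ (Nat.le_add_left _ _)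

end Pool.Agent.Lib.MP_fe24f9_co
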