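import Mathlib

namespace Pool.Agent.Lib.MP_fe24f9_co

open Finset

open Classical in
/-- The number of neighbours of `v` that lie in `A`; for `v ∈ A` this is the degree of `v` in the
subgraph of `G` induced on `A`. -/
noncomputable def degIn {V : Type} (G : SimpleGraph V) (A : Finset V) (v : V) : ℕ :=
  (A.filter fun x => G.Adj v x).card

/-- The subgraph of `G` induced on `A` has fewer than two vertices, or it has two distinct
vertices of maximum degree. -/
def Good {V : Type} (G : SimpleGraph V) (A : Finset V) : Prop :=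
  A.card < 2 ∨ ∃ u ∈ A, ∃ w ∈ A, u ≠ w ∧ (∀ x ∈ A, degIn G A x ≤ degIn G A u) ∧
    ∀ x ∈ A, degIn G A x ≤ degIn G A w

/-- `f(G)`: the least size of a vertex set `B` such that `G - B` is `Good`. -/
noncomputable def fdel {n : ℕ} (G : SimpleGraph (Fin n)) : ℕ :=
  sInf {k | ∃ B : Finset (Fin n), B.card = k ∧ Good G Bᶜ}

/-- Forced top degree. -/
def a (j : ℕ) : ℕ := (j + 2).choose 2 + 1

lemma a_zero : a 0 = 2 := by decide

lemma a_succ (j : ℕ) : a (j + 1) = a j + j + 2 := by
  have h : (j + 1 + 2).choose 2 = (j + 2).choose 1 + (j + 2).choose 2 :=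
    Nat.choose_succ_succ' (j + 2) 1
  simp only [a, h, Nat.choose_one_right]
  omega

lemma a_mono {i j : ℕ} (h : j ≤ i) : a j + (i - j) ≤ a i := by
  induction i, h using Nat.le_induction with
  | base => simp
  | succ i hi ih => rw [a_succ]; omega

section
variable {V : Type} (G : SimpleGraph V)

open Classical in
/-- No deletion of at most `t` vertices makes `A` good. -/
def Bad (t : ℕ) (A : Finset V) : Prop := ∀ B ⊆ A, B.card ≤ t → ¬ Good G (A \ B)

open Classical

variable {G}

lemma degIn_mono {A A' : Finset V} (h : A' ⊆ A) (x : V) : degIn G A' x ≤ degIn G A x :=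
  card_le_card (filter_subset_filter _ h)

lemma bad_erase {t : ℕ} {A : Finset V} (h : Bad G (t + 1) A) {v : V} (hv : v ∈ A) :
    Bad G t (A.erase v) := by
  intro B hB hc
  have h1 : insert v B ⊆ A := insert_subset hv (hB.trans (erase_subset _ _))
  have h2 : (insert v B).card ≤ t + 1 := (card_insert_le _ _).trans (by omega)
  have h3 : A \ insert v B = A.erase v \ B := by
    ext x; simp only [mem_sdiff, mem_insert, mem_erase]; tauto
  have := h _ h1 h2
  rwa [h3] at this

lemma deg_lb : ∀ (t : ℕ) (A : Finset V), Bad G t A → ∃ v ∈ A, a t ≤ degIn G A v := by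
  intro t
  induction t with
  | zero =>
    intro A h
    have h0 := h ∅ (empty_subset _) (by simp)
    rw [sdiff_empty] at h0
    have hc : 1 < A.card := by
      by_contra hc
      exact h0 (Or.inl (by omega))
    obtain ⟨v, hv, hmax⟩ := exists_max_image A (degIn G A) (card_pos.1 (by omega))
    refine ⟨v, hv, ?_⟩
    rw [a_zero]
    by_contra hlt
    apply h0
    right
    rcases Nat.eq_zero_or_pos (degIn G A v) with hz | hp
    · obtain ⟨u, hu, w, hw, huw⟩ := one_lt_card.1 hc
      exact ⟨u, hu, w, hw, huw, fun x hx => by have := hmax x hx; omega,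
        fun x hx => by have := hmax x hx; omega⟩
    · obtain ⟨u, hu⟩ := card_pos.1 hp
      rw [mem_filter] at hu
      have hu1 : 0 < degIn G A u := card_pos.2 ⟨v, mem_filter.2 ⟨hv, hu.2.symm⟩⟩
      exact ⟨v, hv, u, hu.1, hu.2.ne, hmax, fun x hx => by have := hmax x hx; omega⟩
  | succ t ih =>
    intro A h
    have h0 := h ∅ (empty_subset _) (by simp)
    rw [sdiff_empty] at h0
    have hc : 1 < A.card := by
      by_contra hc
      exact h0 (Or.inl (by omega))
    obtain ⟨v, hv, hmax⟩ := exists_max_image A (degIn G A) (card_pos.1 (by omega))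
    obtain ⟨u0, hu0, hd0⟩ := ih _ (bad_erase h hv)
    obtain ⟨u, hu, humax⟩ := exists_max_image (A.erase v) (degIn G A) ⟨u0, hu0⟩
    have hs : a t ≤ degIn G A u :=
      hd0.trans ((degIn_mono (erase_subset _ _) u0).trans (humax u0 hu0))
    obtain ⟨huv, huA⟩ := mem_erase.1 hu
    refine ⟨v, hv, ?_⟩
    rw [a_succ]
    by_contra hlt
    set N := A.filter fun x => G.Adj v x with hN
    have hE : (N.filter fun x => ¬ (x ≠ u ∧ ¬ G.Adj u x)).card ≤ degIn G A u := by
      refine card_le_card_of_injOn (fun x => if x = u then v else x) ?_ ?_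
      · intro x hx
        simp only [coe_filter, Set.mem_ofPred_eq, hN, mem_filter] at hx ⊢
        split_ifs with hxu
        · subst hxu; exact ⟨hv, hx.1.2.symm⟩
        · exact ⟨hx.1.1, by tauto⟩
      · intro x hx y hy hxy
        simp only [coe_filter, Set.mem_ofPred_eq, hN, mem_filter] at hx hy hxy
        split_ifs at hxy with h1 h2 h2
        · rw [h1, h2]
        · exact absurd hxy hy.1.2.ne
        · exact absurd hxy hx.1.2.ne'
        · exact hxy
    have hsplit := card_filter_add_card_filter_not (s := N) (fun x => x ≠ u ∧ ¬ G.Adj u x)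
    have hNd : N.card = degIn G A v := rfl
    obtain ⟨D, hD, hDc⟩ := exists_subset_card_eq
      (s := N.filter fun x => x ≠ u ∧ ¬ G.Adj u x) (n := degIn G A v - degIn G A u) (by omega)
    have hD' : ∀ x ∈ D, x ∈ A ∧ G.Adj v x ∧ x ≠ u ∧ ¬ G.Adj u x := by
      intro x hx
      have := hD hx
      simp only [hN, mem_filter] at this
      tauto
    refine h D (fun x hx => (hD' x hx).1) (by omega) (Or.inr ?_)
    have hvD : v ∉ D := fun hx => (hD' v hx).2.1.ne rfl
    have huD : u ∉ D := fun hx => (hD' u hx).2.2.1 rfl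
    have e1 : degIn G (A \ D) u = degIn G A u := by
      unfold degIn
      congr 1
      ext x
      simp only [mem_filter, mem_sdiff]
      exact ⟨fun hx => ⟨hx.1.1, hx.2⟩, fun hx => ⟨⟨hx.1, fun h' => (hD' x h').2.2.2 hx.2⟩, hx.2⟩⟩
    have e2 : degIn G (A \ D) v = degIn G A u := by
      have : (A \ D).filter (fun x => G.Adj v x) = N \ D := by
        ext x
        simp only [hN, mem_filter, mem_sdiff]
        tauto
      have h2 : D ⊆ N := fun x hx => mem_filter.2 ⟨(hD' x hx).1, (hD' x hx).2.1⟩
      have h3 := hmax u huA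
      unfold degIn at hDc h3 hNd ⊢
      rw [this, card_sdiff_of_subset h2]
      omega
    have e3 : ∀ x ∈ A \ D, degIn G (A \ D) x ≤ degIn G A u := by
      intro x hx
      by_cases hxv : x = v
      · rw [hxv, e2]
      · exact (degIn_mono sdiff_subset x).trans (humax x (mem_erase.2 ⟨hxv, (mem_sdiff.1 hx).1⟩))
    exact ⟨u, mem_sdiff.2 ⟨huA, huD⟩, v, mem_sdiff.2 ⟨hv, hvD⟩, huv,
      fun x hx => e1 ▸ e3 x hx, fun x hx => e2 ▸ e3 x hx⟩

lemma star_lb {A W : Finset V} {v : V} {s b : ℕ} (hb : b ≤ degIn G A v)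
    (hW : (W.filter fun y => y = v ∨ G.Adj v y).card ≤ s) :
    b + 1 - s ≤ (insert v (A.filter fun y => G.Adj v y) \ W).card := by
  set S := insert v (A.filter fun y => G.Adj v y) with hS
  have h1 : S.card = degIn G A v + 1 := card_insert_of_notMem (by simp)
  have h2 := card_sdiff_add_card_inter S W
  have h3 : (S ∩ W).card ≤ (W.filter fun y => y = v ∨ G.Adj v y).card := by
    refine card_le_card fun y hy => ?_
    simp only [hS, mem_inter, mem_insert, mem_filter] at hy ⊢
    tauto
  omega

/-- Peeling bound. -/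
lemma peel {d : ℕ} (hd : ∀ v x : V, x ≠ v → ∀ T : Finset V,
      (∀ y ∈ T, (y = x ∨ G.Adj x y) ∧ G.Adj v y) → T.card ≤ d) :
    ∀ (t : ℕ) (A W : Finset V) (s : ℕ), Bad G t A →
      (∀ x ∈ A, (W.filter fun y => y = x ∨ G.Adj x y).card ≤ s) →
      ∑ j ∈ range (t + 1), (a j + 1 - (s + d * (t - j))) ≤ (A \ W).card := by
  intro t
  induction t with
  | zero =>
    intro A W s h hW
    obtain ⟨v, hv, hb⟩ := deg_lb 0 A h
    have h1 := star_lb hb (hW v hv)
    have h2 : insert v (A.filter fun y => G.Adj v y) \ W ⊆ A \ W :=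
      sdiff_subset_sdiff (insert_subset hv (filter_subset _ _)) (Subset.refl _)
    simpa using h1.trans (card_le_card h2)
  | succ t ih =>
    intro A W s h hW
    obtain ⟨v, hv, hb⟩ := deg_lb _ A h
    have h1 := star_lb hb (hW v hv)
    set N := A.filter fun y => G.Adj v y with hN
    have h2 := ih (A.erase v) (W ∪ N) (s + d) (bad_erase h hv) (by
      intro x hx
      obtain ⟨hxv, hxA⟩ := mem_erase.1 hx
      rw [filter_union]
      refine (card_union_le _ _).trans (add_le_add (hW x hxA) (hd v x hxv _ fun y hy => ?_))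
      simp only [hN, mem_filter] at hy
      tauto)
    have h3 : (insert v N \ W) ∪ (A.erase v \ (W ∪ N)) ⊆ A \ W := by
      intro y hy
      simp only [hN, mem_union, mem_sdiff, mem_insert, mem_filter, mem_erase] at hy ⊢
      rcases hy with ⟨rfl | h', h''⟩ | h'
      · exact ⟨hv, h''⟩
      · exact ⟨h'.1, h''⟩
      · tauto
    have h4 : Disjoint (insert v N \ W) (A.erase v \ (W ∪ N)) := by
      rw [disjoint_left]
      intro y hy hy'
      simp only [mem_union, mem_sdiff, mem_insert, mem_erase] at hy hy'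
      tauto
    have h5 := card_le_card h3
    rw [card_union_of_disjoint h4] at h5
    rw [sum_range_succ]
    have h6 : ∑ j ∈ range (t + 1), (a j + 1 - (s + d * (t + 1 - j))) =
        ∑ j ∈ range (t + 1), (a j + 1 - (s + d + d * (t - j))) := by
      refine sum_congr rfl fun j hj => ?_
      have : t + 1 - j = (t - j) + 1 := by have := mem_range.1 hj; omega
      rw [this, mul_add, mul_one]
      congr 1
      ring
    rw [h6]
    simp only [Nat.sub_self, mul_zero, add_zero]
    omega

end

lemma good_congr {V : Type} {G : SimpleGraph V} {A A' : Finset V} (h : Good G A)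
    (e : ∀ x, x ∈ A' ↔ x ∈ A) : Good G A' := by
  have : A' = A := Finset.ext e
  rw [this]
  exact h

lemma fdel_le_iff {n t : ℕ} (G : SimpleGraph (Fin n)) : fdel G ≤ t ↔ ¬ Bad G t univ := by
  have hne : {k | ∃ B : Finset (Fin n), B.card = k ∧ Good G Bᶜ}.Nonempty :=
    ⟨_, univ, rfl, Or.inl (by simp)⟩
  constructor
  · intro h hb
    obtain ⟨B, hB, hg⟩ := Nat.sInf_mem hne
    exact hb B (subset_univ _) (hB.trans_le h) (good_congr hg (by simp))
  · intro h
    unfold Bad at h
    push Not at h
    obtain ⟨B, -, hc, hg⟩ := h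
    have hm : B.card ∈ {k | ∃ B : Finset (Fin n), B.card = k ∧ Good G Bᶜ} :=
      ⟨B, rfl, good_congr hg (by simp)⟩
    exact (Nat.sInf_le hm).trans hc

end Pool.Agent.Lib.MP_fe24f9_co
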